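import Pool.Agent.Helper97.TI.Defs

/-! Module K6 of MP_17e24e_ag: Jacobian criterion. -/

set_option autoImplicit false
open MvPolynomial

namespace TI

section K6
variable {κ d n : ℕ} {K : Type} [Field K] [Algebra ℂ K] [Algebra (RR κ) K]
  [IsScalarTower ℂ (RR κ) K]

/-- a derivation killing `c` kills the field generated by `c` -/
theorem K6_adjoin {K : Type} [Field K] [Algebra ℂ K] {n : ℕ} (D : Derivation ℂ K K)
    (c : Fin n → K) (h : ∀ j, D (c j) = 0) (f : K)
    (hf : f ∈ IntermediateField.adjoin ℂ (Set.range c)) : D f = 0 := by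
  induction hf using IntermediateField.adjoin_induction with
  | mem x hx =>
    obtain ⟨j, rfl⟩ := hx
    exact h j
  | algebraMap x => exact D.map_algebraMap x
  | add x y _ _ hx hy => rw [map_add, hx, hy, add_zero]
  | mul x y _ _ hx hy => rw [D.leibniz, hx, hy, smul_zero, smul_zero, add_zero]
  | inv x _ hx => rw [D.leibniz_inv, hx, smul_zero]

/-- a derivation killing a subfield kills the algebraic elements -/
theorem K6_alg {K : Type} [Field K] [Algebra ℂ K] (D : Derivation ℂ K K)
    (L : IntermediateField ℂ K) (h : ∀ x ∈ L, D x = 0) (f : K) (hf : IsAlgebraic L f) :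
    D f = 0 := by
  let D' : Derivation L K K :=
    { toFun := D
      map_add' := D.map_add
      map_smul' := fun a x => by
        change D ((a : K) * x) = (a : K) * D x
        rw [D.leibniz, h a a.2, smul_zero, add_zero, smul_eq_mul]
      map_one_eq_zero' := by
        change D 1 = 0
        exact D.map_one_eq_zero
      leibniz' := fun a b => D.leibniz a b }
  have h1 : D' (Polynomial.aeval f (minpoly L f)) = 0 := by
    rw [minpoly.aeval]
    exact map_zero D'
  rw [Derivation.map_aeval, smul_eq_mul] at h1
  have hsep : (minpoly L f).Separable := (minpoly.irreducible hf.isIntegral).separable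
  have h2 : Polynomial.aeval f (Polynomial.derivative (minpoly L f)) ≠ 0 :=
    hsep.aeval_derivative_ne_zero (minpoly.aeval L f)
  rcases mul_eq_zero.1 h1 with h3 | h3
  · exact absurd h3 h2
  · exact h3

/-- K6: Jacobian criterion -/
theorem Dl_ne_zero (S : Sys κ d n K) (c : Fin n → K)
    (hc : ∀ f : K, IsAlgebraic (IntermediateField.adjoin ℂ (Set.range c)) f) :
    Dl S.der c ≠ 0 := by
  intro h
  obtain ⟨v, hv, hv0⟩ := Matrix.exists_vecMul_eq_zero_iff.2 h
  let D : Derivation ℂ K K := ∑ k, v k • S.der k
  have hD : ∀ f, D f = ∑ k, v k * S.der k f := by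
    intro f
    have h5 := congrFun (map_sum (Derivation.coeFnAddMonoidHom (R := ℂ) (A := K) (M := K))
      (fun k => v k • S.der k) Finset.univ) f
    refine h5.trans ?_
    rw [Finset.sum_apply]
    rfl
  have h1 : ∀ j, D (c j) = 0 := by
    intro j
    rw [hD]
    have := congrFun hv0 j
    simpa [Matrix.vecMul, dotProduct] using this
  have h2 : ∀ f, D f = 0 := fun f =>
    K6_alg D _ (fun x hx => K6_adjoin D c h1 x hx) f (hc f)
  apply hv
  funext j
  have h3 := h2 (xb κ K (S.l j))
  rw [hD] at h3
  simpa [S.der_x] using h3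

end K6

end TI
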